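import Mathlib
import Pool.Agent.P.MP_8cdae7_nt.Hyp

set_option autoImplicit false

namespace Pool.Agent.Results.MP_8cdae7_nt.SuperpolyGaps

/-- Two solutions of the Erdős–Moser equation are superpolynomially far apart. -/
theorem result (A : ℕ) : ∃ M : ℕ, ∀ k₁ m₁ k₂ m₂ : ℕ,
    ∑ i ∈ Finset.Ico 1 m₁, i ^ k₁ = m₁ ^ k₁ → ∑ i ∈ Finset.Ico 1 m₂, i ^ k₂ = m₂ ^ k₂ →
    M ≤ m₁ → m₁ < m₂ → m₁ ^ A < m₂ := by
  by_contra h
  push Not at h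
  choose k1 m1 k2 m2 s1 s2 h1 h2 h3 using fun n => h (n + 3)
  exact Pool.Agent.P.MP_8cdae7_nt.no_seq A k1 m1 k2 m2 h1 h2 h3 s1 s2

end Pool.Agent.Results.MP_8cdae7_nt.SuperpolyGaps
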